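import Mathlib
import Pool.Agent.MP_6d695c_gt.t1.All

open scoped Manifold ContDiff

namespace Pool.Agent.Results.MP_6d695c_gt.CircleWeinstein

open Pool.Agent.MP_6d695c_gt Pool.Agent.MP_6d695c_gt.T1

noncomputable section

variable {E : Type} [NormedAddCommGroup E] [NormedSpace ℝ E] {H : Type} [TopologicalSpace H]
  (I : ModelWithCorners ℝ E H) {M : Type} [TopologicalSpace M] [ChartedSpace H M]
  {F : Type} [NormedAddCommGroup F] [NormedSpace ℝ F] {G : Type} [TopologicalSpace G]
  (J : ModelWithCorners ℝ F G) {N : Type} [TopologicalSpace N] [ChartedSpace G N]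

/-- `l` is Liouville homotopic to a Weinstein structure. -/
def ToWeinstein (l : OneForm I M) : Prop := ∃ l', Homotopic I l l' ∧ WeinsteinMfd I l'

/-- The form `l + p a` on `M × (N × ℝ)`, where `p` is the coordinate of `ℝ`. -/
def times (l : OneForm I M) (a : OneForm J N) :
    OneForm (I.prod (J.prod 𝓘(ℝ, ℝ))) (M × (N × ℝ)) := fun x =>
  ((l x.1).comp (ContinuousLinearMap.fst ℝ E (F × ℝ)) +
    x.2.2 • (a x.2.1).comp
      ((ContinuousLinearMap.fst ℝ F ℝ).comp (ContinuousLinearMap.snd ℝ E (F × ℝ))) :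
    E × (F × ℝ) →L[ℝ] ℝ)

/-- The form `l + p a` is Liouville homotopic to a Weinstein structure. -/
def TimesW (l : OneForm I M) (a : OneForm J N) : Prop := ToWeinstein _ (times I J l a)

end

/-- If the skeleton of a finite-type Liouville manifold `W` of dimension `2n` is stratified by
manifolds of dimension at most `n` (or only has `(n+1)`-dimensional Hausdorff measure zero), then
`W × T^*S¹ = W × (S¹ × ℝ)` with the form `l + p dθ` is Liouville homotopic to a Weinstein
manifold. -/
theorem result (n : ℕ) (W : Type) [TopologicalSpace W]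
    [ChartedSpace (EuclideanSpace ℝ (Fin (2 * n))) W] [IsManifold (𝓡 (2 * n)) ∞ W] [T2Space W]
    (l : OneForm (𝓡 (2 * n)) W) (Z : VField (𝓡 (2 * n)) W) (hZ : IsLiouville (𝓡 (2 * n)) l Z)
    (h : LiouvilleMfd (𝓡 (2 * n)) l)
    (hK : Stratified (2 * n) n (skeleton Z) ∨ Thin (2 * n) (n + 1) (skeleton Z)) :
    TimesW (𝓡 (2 * n)) (𝓡 1) (N := Circle) l dTheta :=
  finalT covAll (glueS symp) (circ rel) prodC (embC smpC) finG skel strat n W l Z hZ h hK

end Pool.Agent.Results.MP_6d695c_gt.CircleWeinstein
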