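import Mathlib
import Pool.Agent.MP_6d695c_gt.t2.All

open scoped Manifold ContDiff

namespace Pool.Agent.Results.MP_6d695c_gt.OnceStabilised

open Pool.Agent.MP_6d695c_gt Pool.Agent.MP_6d695c_gt.T1

section

variable {E : Type} [NormedAddCommGroup E] [NormedSpace ℝ E] {H : Type} [TopologicalSpace H]
  (I : ModelWithCorners ℝ E H) {M : Type} [TopologicalSpace M] [ChartedSpace H M]

/-- `l` is Liouville homotopic to a Weinstein structure. -/
def ToWeinstein (l : OneForm I M) : Prop := ∃ l', Homotopic I l l' ∧ WeinsteinMfd I l'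

/-- The form `l + ½ (x dy - y dx)` on `M × ℂ` is Liouville homotopic to a Weinstein structure. -/
def OnceW (l : OneForm I M) : Prop := ToWeinstein _ (stab I l 1)

/-- The 2-form `df ∧ l` does not vanish at `x`. -/
def WedgeNe (f : M → ℝ) (l : OneForm I M) (x : M) : Prop :=
  ∃ u v, der I f x u * l x v ≠ der I f x v * l x u

/-- On an open set `U` containing `K` there are a `C¹` function `f` and a continuous function `μ`
with `df(Z) = μ f`, and at the points of `K` we have `f = 0`, `μ > 0` and `df ∧ l ≠ 0`: the set `K`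
lies in a `C¹` hypersurface that is invariant and normally repelling under `Z`, and `l` restricted
to that hypersurface does not vanish on `K`. -/
def Repelling (l : OneForm I M) (Z : VField I M) (K : Set M) : Prop :=
  ∃ (U : Set M) (f μ : M → ℝ), IsOpen U ∧ ContMDiffOn I 𝓘(ℝ, ℝ) 1 f U ∧ ContinuousOn μ U ∧
    (∀ x ∈ U, der I f x (Z x) = μ x * f x) ∧
    ∀ x ∈ K, x ∈ U ∧ f x = 0 ∧ 0 < μ x ∧ WedgeNe I f l x

end

/-- If the skeleton of a four-dimensional finite-type Liouville manifold `W` lies in a normally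
repelling invariant `C¹` hypersurface on which the Liouville form does not vanish, then `W × ℂ`
with the form `l + ½ (x dy - y dx)` is Liouville homotopic to a Weinstein manifold. -/
theorem result (W : Type) [TopologicalSpace W] [ChartedSpace (EuclideanSpace ℝ (Fin 4)) W]
    [IsManifold (𝓡 4) ∞ W] [T2Space W] (l : OneForm (𝓡 4) W) (Z : VField (𝓡 4) W)
    (hZ : IsLiouville (𝓡 4) l Z) (h : LiouvilleMfd (𝓡 4) l)
    (hK : Repelling (𝓡 4) l Z (skeleton Z)) : OnceW (𝓡 4) l := by
  obtain ⟨U, y, μ, hU, hy, hμ, he, hK⟩ := hK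
  exact T2.final2 T2.mainAll T2.hyp T2.prodT (T2.embT T2.smpT) T2.finH W l Z hZ h y μ U hU hy hμ
    he hK

end Pool.Agent.Results.MP_6d695c_gt.OnceStabilised
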