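import Mathlib
import Pool.Agent.MP_6d695c_gt.q.All

open scoped Manifold ContDiff Topology

namespace Pool.Agent.Results.MP_6d695c_gt.SlowSkeleton

open Pool.Agent.MP_6d695c_gt Pool.Agent.MP_6d695c_gt.T1

noncomputable section

variable {E : Type} [NormedAddCommGroup E] [NormedSpace ℝ E] {H : Type} [TopologicalSpace H]
  (I : ModelWithCorners ℝ E H) {M : Type} [TopologicalSpace M] [ChartedSpace H M]

/-- `l` is Liouville homotopic to a Weinstein structure. -/
def ToWeinstein (l : OneForm I M) : Prop := ∃ l', Homotopic I l l' ∧ WeinsteinMfd I l'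

/-- `F` is the flow of `Z`. -/
def FlowOf (Z : VField I M) (F : ℝ → M → M) : Prop :=
  ∀ x, F 0 x = x ∧ IsMIntegralCurve (fun t => F t x) Z

/-- The derivative at `x` in the direction `v` of a map to the model space. -/
def dE (f : M → E) (x : M) (v : TangentSpace I x) : E := mfderiv I 𝓘(ℝ, E) f x v

/-- The norm of `df(v)` in the chart at `q`. -/
def dNorm (q : M) (f : M → M) (x : M) (v : TangentSpace I x) : ℝ :=
  ‖dE I (fun y => extChartAt I q (f y)) x v‖

/-- At the points of `K` the differential of the backward flow `F (-t)`, `t ≥ 0`, grows at most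
like `C exp (ε t)`. The norms are those of the charts at `p` and `q`, for orbit segments that start
near `p` and end near `q`. -/
def SlowBack (F : ℝ → M → M) (K : Set M) (ε : ℝ) : Prop :=
  ∀ p q : M, ∃ C : ℝ, ∀ᶠ z : M × M in 𝓝 (p, q), z.1 ∈ K → ∀ t : ℝ, 0 ≤ t → F (-t) z.1 = z.2 →
    ∀ v : TangentSpace I z.1,
      dNorm I q (F (-t)) z.1 v ≤ C * Real.exp (ε * t) * dNorm I p id z.1 v

omit [TopologicalSpace M] in
/-- No point of `K` is fixed or has a period at most `T`. -/
def NoShort (F : ℝ → M → M) (K : Set M) (T : ℝ) : Prop :=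
  ∀ x ∈ K, ∀ t : ℝ, 0 < t → t ≤ T → F t x ≠ x

/-- Along `K` the backward flow of `Z` expands at most at the rate `ε`, and `K` contains no zero
and no closed orbit of period at most `T`. -/
def Slow (Z : VField I M) (K : Set M) (ε T : ℝ) : Prop :=
  ∃ F : ℝ → M → M, FlowOf I Z F ∧ SlowBack I F K ε ∧ NoShort F K T

end

/-- In each dimension `2m + 2` there are `ε, T > 0` such that a finite-type Liouville manifold is
Liouville homotopic to a Weinstein manifold as soon as, along its skeleton, the backward Liouville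
flow expands at most at the rate `ε` and has no zero and no closed orbit of period at most `T`. -/
theorem result (m : ℕ) : ∃ ε T : ℝ, 0 < ε ∧ 0 < T ∧
    ∀ (W : Type) [TopologicalSpace W] [ChartedSpace (EuclideanSpace ℝ (Fin (2 * m + 2))) W]
      [IsManifold (𝓡 (2 * m + 2)) ∞ W] [T2Space W] (l : OneForm (𝓡 (2 * m + 2)) W)
      (Z : VField (𝓡 (2 * m + 2)) W), IsLiouville (𝓡 (2 * m + 2)) l Z →
      LiouvilleMfd (𝓡 (2 * m + 2)) l → Slow (𝓡 (2 * m + 2)) Z (skeleton Z) ε T →
      ToWeinstein (𝓡 (2 * m + 2)) l := by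
  obtain ⟨ε, T, hε, hT, h⟩ := P.all m
  exact ⟨ε, T, hε, hT, fun W _ _ _ _ l Z hZ hl ⟨F, hF, hS, hN⟩ => h W l Z F hZ hl hF hS hN⟩

end Pool.Agent.Results.MP_6d695c_gt.SlowSkeleton
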