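import Pool.Agent.MP_6d695c_gt.sw.All

open scoped Manifold ContDiff

namespace Pool.Agent.Results.MP_6d695c_gt.StablyWeinstein

open Pool.Agent.MP_6d695c_gt

section
variable {E : Type} [NormedAddCommGroup E] [NormedSpace ℝ E] {H : Type} [TopologicalSpace H]
  (I : ModelWithCorners ℝ E H) {M : Type} [TopologicalSpace M] [ChartedSpace H M]

/-- `l` is Liouville homotopic to a Weinstein structure. -/
def ToWeinstein (l : OneForm I M) : Prop := ∃ l', Homotopic I l l' ∧ WeinsteinMfd I l'

/-- For all large `k` the form `l + ½ ∑ (x dy - y dx)` on `M × ℂ^k` is Liouville homotopic to a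
Weinstein structure. -/
def Stably (l : OneForm I M) : Prop := ∃ k₀ : ℕ, ∀ k ≥ k₀, ToWeinstein _ (stab I l k)

end

/-- Every Liouville manifold of finite type becomes Liouville homotopic to a Weinstein manifold
after multiplication by `ℂ^k` with the radial form, for all large `k`. -/
theorem result (n : ℕ) (W : Type) [TopologicalSpace W]
    [ChartedSpace (EuclideanSpace ℝ (Fin (2 * n))) W] [IsManifold (𝓡 (2 * n)) ∞ W] [T2Space W]
    (l : OneForm (𝓡 (2 * n)) W) (h : LiouvilleMfd (𝓡 (2 * n)) l) : Stably (𝓡 (2 * n)) l :=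
  SW.all n W l h

end Pool.Agent.Results.MP_6d695c_gt.StablyWeinstein
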